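import Mathlib

/-!
# MP_a656b1_co: the largest `I,U`-families in a product of even chains

If every `e_i` is even then `g(e) = (∏ (e_i + 1) - 1 - ∑ e_i) / 4`.

Write `e_i = 2 m_i` and use the centred coordinates `x_i = a_i - m_i ∈ [-m_i, m_i]`.
-/

set_option autoImplicit false

open Finset
open scoped FinsetFamily

namespace Pool.Agent.Results.MP_a656b1_co.ExactValue

/-- `M(e)`: the vectors `a` with `0 ≤ a_i ≤ e_i` for all `i`. -/
def M {n : ℕ} (e : Fin n → ℕ) : Finset (Fin n → ℕ) :=
  Fintype.piFinset (fun i => range (e i + 1))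

/-- `F ⊆ M(e)` is an `I,U`-family: for all `a, b ∈ F`, equal or not, there are an index `i` with
`a_i + b_i > e_i` and an index `j` with `a_j + b_j < e_j`. -/
def IsIU {n : ℕ} (e : Fin n → ℕ) (F : Finset (Fin n → ℕ)) : Prop :=
  F ⊆ M e ∧ ∀ a ∈ F, ∀ b ∈ F, (∃ i, e i < a i + b i) ∧ (∃ j, a j + b j < e j)

open Classical in
/-- `g(e)`: the maximum size of an `I,U`-family in `M(e)`. -/
noncomputable def g {n : ℕ} (e : Fin n → ℕ) : ℕ :=
  ((M e).powerset.filter (IsIU e)).sup card

/-! ### Centred coordinates -/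

/-- the box `∏ [-m_i, m_i]` -/
noncomputable def Box {n : ℕ} (m : Fin n → ℕ) : Finset (Fin n → ℤ) :=
  Fintype.piFinset (fun i => Icc (-(m i : ℤ)) (m i))

lemma mem_Box {n : ℕ} {m : Fin n → ℕ} {x : Fin n → ℤ} :
    x ∈ Box m ↔ ∀ i, -(m i : ℤ) ≤ x i ∧ x i ≤ m i := by
  simp [Box]

lemma neg_mem_Box {n : ℕ} {m : Fin n → ℕ} {x : Fin n → ℤ} (h : x ∈ Box m) : -x ∈ Box m := by
  rw [mem_Box] at h ⊢
  intro i
  have := h i
  simp only [Pi.neg_apply]
  omega

lemma zero_mem_Box {n : ℕ} (m : Fin n → ℕ) : (0 : Fin n → ℤ) ∈ Box m := by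
  rw [mem_Box]
  intro i
  simp only [Pi.zero_apply]
  omega

lemma card_Box {n : ℕ} (m : Fin n → ℕ) : #(Box m) = ∏ i, (2 * m i + 1) := by
  rw [Box, Fintype.card_piFinset]
  refine prod_congr rfl (fun i _ => ?_)
  rw [Int.card_Icc]
  omega

lemma cons_mem_Box {n : ℕ} {m : Fin (n + 1) → ℕ} {j : ℤ} {x : Fin n → ℤ} :
    (Fin.cons j x : Fin (n + 1) → ℤ) ∈ Box m ↔
      j ∈ Icc (-(m 0 : ℤ)) (m 0) ∧ x ∈ Box (fun i => m i.succ) := by
  rw [mem_Box, mem_Box, Fin.forall_fin_succ, mem_Icc]
  simp only [Fin.cons_zero, Fin.cons_succ]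

/-- slicing a subset of the box by the first coordinate -/
lemma card_slice {n : ℕ} (m : Fin (n + 1) → ℕ) (P : (Fin (n + 1) → ℤ) → Prop) [DecidablePred P] :
    #((Box m).filter P) = ∑ j ∈ Icc (-(m 0 : ℤ)) (m 0),
      #((Box (fun i : Fin n => m i.succ)).filter (fun x => P (Fin.cons j x))) := by
  have h1 : Box m = (Icc (-(m 0 : ℤ)) (m 0) ×ˢ Box (fun i : Fin n => m i.succ)).image
      (fun p => (Fin.cons p.1 p.2 : Fin (n + 1) → ℤ)) := by
    ext x
    rw [mem_image]
    constructor
    · intro hx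
      refine ⟨(x 0, Fin.tail x), ?_, Fin.cons_self_tail x⟩
      rw [← Fin.cons_self_tail x, cons_mem_Box] at hx
      exact mem_product.2 hx
    · rintro ⟨p, hp, rfl⟩
      exact cons_mem_Box.2 (mem_product.1 hp)
  have hinj : Function.Injective
      (fun p : ℤ × (Fin n → ℤ) => (Fin.cons p.1 p.2 : Fin (n + 1) → ℤ)) := by
    intro p q h
    have h2 := Fin.cons_injective2 h
    exact Prod.ext h2.1 h2.2
  rw [h1, filter_image, card_image_of_injective _ hinj, card_filter, sum_product]
  refine sum_congr rfl (fun j _ => ?_)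
  rw [card_filter]

/-! ### Maximal `I`-families and the correlation inequality -/

/-- an up-set of the box containing exactly one of `x`, `-x` for every `x ≠ 0` in the box, and not
containing `0` -/
structure Good {n : ℕ} (m : Fin n → ℕ) (U : Finset (Fin n → ℤ)) : Prop where
  sub : U ⊆ Box m
  up : ∀ x ∈ U, ∀ y ∈ Box m, x ≤ y → y ∈ U
  zero : (0 : Fin n → ℤ) ∉ U
  anti : ∀ x ∈ Box m, x ≠ 0 → x ∈ U ∨ -x ∈ U
  excl : ∀ x ∈ U, -x ∉ U

lemma Good.card {n : ℕ} {m : Fin n → ℕ} {U : Finset (Fin n → ℤ)} (h : Good m U) :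
    2 * #U + 1 = #(Box m) := by
  classical
  have h1 : Box m = insert 0 (U ∪ U.image (fun x => -x)) := by
    ext x
    rw [mem_insert, mem_union, mem_image]
    constructor
    · intro hx
      by_cases h0 : x = 0
      · exact Or.inl h0
      · rcases h.anti x hx h0 with h2 | h2
        · exact Or.inr (Or.inl h2)
        · exact Or.inr (Or.inr ⟨-x, h2, neg_neg x⟩)
    · rintro (rfl | h2 | ⟨y, hy, rfl⟩)
      · exact zero_mem_Box m
      · exact h.sub h2
      · exact neg_mem_Box (h.sub hy)
  have h2 : Disjoint U (U.image (fun x => -x)) := by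
    rw [disjoint_left]
    intro x hx hx'
    obtain ⟨y, hy, rfl⟩ := mem_image.1 hx'
    exact h.excl y hy hx
  have h3 : (0 : Fin n → ℤ) ∉ U ∪ U.image (fun x => -x) := by
    rw [mem_union, mem_image]
    rintro (h4 | ⟨y, hy, h5⟩)
    · exact h.zero h4
    · rw [neg_eq_zero.1 h5] at hy
      exact h.zero hy
  rw [h1, card_insert_of_notMem h3, card_union_of_disjoint h2,
    card_image_of_injective _ neg_injective]
  omega

/-- the correlation inequality for up-sets of a box -/
lemma kleitman {n : ℕ} (m : Fin n → ℕ) (U V : Finset (Fin n → ℤ)) (hU : U ⊆ Box m)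
    (hV : V ⊆ Box m) (hU' : ∀ x ∈ U, ∀ y ∈ Box m, x ≤ y → y ∈ U)
    (hV' : ∀ x ∈ V, ∀ y ∈ Box m, x ≤ y → y ∈ V) :
    #U * #V ≤ #(Box m) * #(U ∩ V) := by
  refine (le_card_infs_mul_card_sups U V).trans (Nat.mul_le_mul ?_ ?_)
  · apply card_le_card
    intro z hz
    obtain ⟨x, hx, y, hy, rfl⟩ := mem_infs.1 hz
    have h1 := mem_Box.1 (hU hx)
    have h2 := mem_Box.1 (hV hy)
    rw [mem_Box]
    intro i
    have := h1 i
    have := h2 i
    simp only [Pi.inf_apply]
    constructor
    · exact le_inf (h1 i).1 (h2 i).1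
    · exact inf_le_left.trans (h1 i).2
  · apply card_le_card
    intro z hz
    obtain ⟨x, hx, y, hy, rfl⟩ := mem_sups.1 hz
    have h1 := mem_Box.1 (hU hx)
    have h2 := mem_Box.1 (hV hy)
    have h3 : x ⊔ y ∈ Box m := by
      rw [mem_Box]
      intro i
      simp only [Pi.sup_apply]
      exact ⟨(h1 i).1.trans le_sup_left, sup_le (h1 i).2 (h2 i).2⟩
    exact mem_inter.2 ⟨hU' x hx _ h3 le_sup_left, hV' y hy _ h3 le_sup_right⟩

/-- the arithmetic of the induction step -/
lemma arith (N u v w : ℕ) (h : u * v ≤ N * w) (hu : N + 1 ≤ 2 * u) (hv : N + 1 ≤ 2 * v)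
    (hN : 0 < N) : N + 1 + 2 * u + 2 * v ≤ 2 * N + 4 * w := by
  by_contra hcon
  push Not at hcon
  have h1 : 2 * N + 4 * w ≤ N + 2 * u + 2 * v := by omega
  zify at *
  nlinarith [mul_le_mul_of_nonneg_left h1 (by omega : (0 : ℤ) ≤ N)]

open Classical in
/-- Any two maximal `I`-families `U`, `V` satisfy `4 |U ∩ V| ≥ |M| - 1 + ∑ e_i`. -/
theorem correlation : ∀ (n : ℕ) (m : Fin n → ℕ) (U V : Finset (Fin n → ℤ)),
    Good m U → Good m V → #(Box m) + 2 * ∑ i, m i ≤ 4 * #(U ∩ V) + 1
  | 0, m, U, V, _, _ => by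
    rw [card_Box]
    simp
  | n + 1, m, U, V, hU, hV => by
    set B := Box (fun i : Fin n => m i.succ) with hB
    set N := #B with hN
    have hN0 : 0 < N := card_pos.2 ⟨0, zero_mem_Box _⟩
    let S : Finset (Fin (n + 1) → ℤ) → ℤ → Finset (Fin n → ℤ) :=
      fun W j => B.filter (fun x => (Fin.cons j x : Fin (n + 1) → ℤ) ∈ W)
    have memS : ∀ W j x, x ∈ S W j ↔ x ∈ B ∧ (Fin.cons j x : Fin (n + 1) → ℤ) ∈ W :=
      fun W j x => mem_filter
    have hneg : ∀ (j : ℤ) (x : Fin n → ℤ),
        -(Fin.cons j x : Fin (n + 1) → ℤ) = Fin.cons (-j) (-x) := by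
      intro j x
      ext i
      refine Fin.cases ?_ (fun i => ?_) i
      · simp
      · simp
    have hcons_le : ∀ (j k : ℤ) (x y : Fin n → ℤ), j ≤ k → x ≤ y →
        (Fin.cons j x : Fin (n + 1) → ℤ) ≤ Fin.cons k y := by
      intro j k x y hjk hxy i
      refine Fin.cases ?_ (fun i => ?_) i
      · simpa using hjk
      · simpa using hxy i
    have hcons0 : ∀ (j : ℤ) (x : Fin n → ℤ), (Fin.cons j x : Fin (n + 1) → ℤ) = 0 →
        j = 0 ∧ x = 0 := by
      intro j x h
      refine ⟨by simpa using congrFun h 0, ?_⟩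
      ext i
      simpa using congrFun h i.succ
    -- slicing the intersection
    have hslice : #(U ∩ V) = ∑ j ∈ Icc (-(m 0 : ℤ)) (m 0), #(S U j ∩ S V j) := by
      have h1 : U ∩ V = (Box m).filter (fun x => x ∈ U ∩ V) := by
        ext x
        rw [mem_filter]
        exact ⟨fun h => ⟨hU.sub (mem_inter.1 h).1, h⟩, fun h => h.2⟩
      rw [h1, card_slice]
      refine sum_congr rfl (fun j _ => ?_)
      congr 1
      ext x
      rw [mem_filter, mem_inter, mem_inter, memS, memS]
      tauto
    -- facts about slices for positive `j`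
    have up : ∀ W, Good m W → ∀ j ∈ Icc (-(m 0 : ℤ)) (m 0), ∀ x ∈ S W j, ∀ y ∈ B, x ≤ y →
        y ∈ S W j := by
      intro W hW j hj x hx y hy hxy
      rw [memS] at hx ⊢
      exact ⟨hy, hW.up _ hx.2 _ (cons_mem_Box.2 ⟨hj, hy⟩) (hcons_le j j x y le_rfl hxy)⟩
    have dual : ∀ W, Good m W → ∀ j ∈ Icc (1 : ℤ) (m 0), ∀ x ∈ B,
        (x ∈ S W (-j) ↔ -x ∉ S W j) := by
      intro W hW j hj x hx
      rw [mem_Icc] at hj
      rw [memS, memS]
      have h1 := hneg j (-x)
      rw [neg_neg] at h1
      have hbox : (Fin.cons (-j) x : Fin (n + 1) → ℤ) ∈ Box m :=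
        cons_mem_Box.2 ⟨mem_Icc.2 (by omega), hx⟩
      have hne : (Fin.cons (-j) x : Fin (n + 1) → ℤ) ≠ 0 := fun h => by
        have := (hcons0 _ _ h).1
        omega
      have h2 : -(Fin.cons (-j) x : Fin (n + 1) → ℤ) = Fin.cons j (-x) := by
        rw [hneg, neg_neg]
      constructor
      · rintro ⟨-, h3⟩ ⟨-, h4⟩
        exact hW.excl _ h3 (h2 ▸ h4)
      · intro h3
        refine ⟨hx, ?_⟩
        rcases hW.anti _ hbox hne with h4 | h4
        · exact h4
        · exact absurd ⟨neg_mem_Box hx, h2 ▸ h4⟩ h3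
    have big : ∀ W, Good m W → ∀ j ∈ Icc (1 : ℤ) (m 0), N + 1 ≤ 2 * #(S W j) := by
      intro W hW j hj
      have hj' := mem_Icc.1 hj
      have hin : ∀ x ∈ B, x ∈ S W j ∨ -x ∈ S W j := by
        intro x hx
        by_cases h1 : x ∈ S W (-j)
        · left
          rw [memS] at h1 ⊢
          exact ⟨hx, hW.up _ h1.2 _ (cons_mem_Box.2 ⟨mem_Icc.2 (by omega), hx⟩)
            (hcons_le (-j) j x x (by omega) le_rfl)⟩
        · right
          by_contra h2
          exact h1 ((dual W hW j hj x hx).2 h2)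
      have h0 : (0 : Fin n → ℤ) ∈ S W j := by
        rcases hin 0 (zero_mem_Box _) with h | h
        · exact h
        · rwa [neg_zero] at h
      have h1 : B ⊆ S W j ∪ (S W j).image (fun x => -x) := by
        intro x hx
        rcases hin x hx with h | h
        · exact mem_union_left _ h
        · exact mem_union_right _ (mem_image.2 ⟨-x, h, neg_neg x⟩)
      have h2 : 0 < #(S W j ∩ (S W j).image (fun x => -x)) :=
        card_pos.2 ⟨0, mem_inter.2 ⟨h0, mem_image.2 ⟨0, h0, neg_zero⟩⟩⟩
      have h3 := card_union_add_card_inter (S W j) ((S W j).image (fun x => -x))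
      rw [card_image_of_injective _ neg_injective] at h3
      have h4 := card_le_card h1
      omega
    -- the pair of slices `j`, `-j`
    have pair : ∀ j ∈ Icc (1 : ℤ) (m 0),
        N + 1 ≤ 2 * (#(S U j ∩ S V j) + #(S U (-j) ∩ S V (-j))) := by
      intro j hj
      have hj' := mem_Icc.1 hj
      have hjI : j ∈ Icc (-(m 0 : ℤ)) (m 0) := mem_Icc.2 (by omega)
      have hk := kleitman (fun i : Fin n => m i.succ) (S U j) (S V j) (filter_subset _ _)
        (filter_subset _ _) (up U hU j hjI) (up V hV j hjI)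
      have h1 : #(S U (-j) ∩ S V (-j)) + #(S U j ∪ S V j) = N := by
        have h2 : S U (-j) ∩ S V (-j) = (B \ (S U j ∪ S V j)).image (fun x => -x) := by
          ext x
          rw [mem_inter, mem_image]
          constructor
          · rintro ⟨hx1, hx2⟩
            have hxB := ((memS _ _ _).1 hx1).1
            refine ⟨-x, mem_sdiff.2 ⟨neg_mem_Box hxB, ?_⟩, neg_neg x⟩
            rw [mem_union]
            rintro (h | h)
            · exact (dual U hU j hj x hxB).1 hx1 h
            · exact (dual V hV j hj x hxB).1 hx2 h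
          · rintro ⟨y, hy, rfl⟩
            rw [mem_sdiff, mem_union, not_or] at hy
            have hyB := neg_mem_Box hy.1
            refine ⟨(dual U hU j hj _ hyB).2 ?_, (dual V hV j hj _ hyB).2 ?_⟩
            · rw [neg_neg]; exact hy.2.1
            · rw [neg_neg]; exact hy.2.2
        have h4 : #(B \ (S U j ∪ S V j)) + #(S U j ∪ S V j) = #B :=
          card_sdiff_add_card_eq_card (union_subset (filter_subset _ _) (filter_subset _ _))
        rw [h2, card_image_of_injective _ neg_injective]
        exact h4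
      have h3 := card_union_add_card_inter (S U j) (S V j)
      have h4 := arith N _ _ _ hk (big U hU j hj) (big V hV j hj) hN0
      omega
    -- the middle slice
    have good0 : ∀ W, Good m W → Good (fun i : Fin n => m i.succ) (S W 0) := by
      intro W hW
      have h0I : (0 : ℤ) ∈ Icc (-(m 0 : ℤ)) (m 0) := mem_Icc.2 (by omega)
      refine ⟨filter_subset _ _, up W hW 0 h0I, ?_, ?_, ?_⟩
      · intro h
        apply hW.zero
        have h1 := ((memS _ _ _).1 h).2
        have h2 : (Fin.cons 0 0 : Fin (n + 1) → ℤ) = 0 := by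
          ext i
          refine Fin.cases ?_ (fun i => ?_) i <;> simp
        rwa [h2] at h1
      · intro x hx hx0
        rcases hW.anti (Fin.cons 0 x) (cons_mem_Box.2 ⟨h0I, hx⟩)
          (fun h => hx0 (hcons0 _ _ h).2) with h | h
        · exact Or.inl ((memS _ _ _).2 ⟨hx, h⟩)
        · rw [hneg, neg_zero] at h
          exact Or.inr ((memS _ _ _).2 ⟨neg_mem_Box hx, h⟩)
      · intro x hx hx'
        have h1 := ((memS _ _ _).1 hx).2
        have h2 := ((memS _ _ _).1 hx').2
        apply hW.excl _ h1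
        rw [hneg, neg_zero]
        exact h2
    have h0 := correlation n _ _ _ (good0 U hU) (good0 V hV)
    -- summing up
    have hsplit : ∑ j ∈ Icc (-(m 0 : ℤ)) (m 0), #(S U j ∩ S V j) =
        #(S U 0 ∩ S V 0) + ∑ j ∈ Icc (1 : ℤ) (m 0),
          (#(S U j ∩ S V j) + #(S U (-j) ∩ S V (-j))) := by
      have h1 : Icc (-(m 0 : ℤ)) (m 0) =
          insert 0 (Icc (1 : ℤ) (m 0) ∪ (Icc (1 : ℤ) (m 0)).image (fun j => -j)) := by
        ext j
        rw [mem_insert, mem_union, mem_image, mem_Icc, mem_Icc]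
        constructor
        · intro hj
          rcases lt_trichotomy j 0 with h | h | h
          · exact Or.inr (Or.inr ⟨-j, mem_Icc.2 (by omega), neg_neg j⟩)
          · exact Or.inl h
          · exact Or.inr (Or.inl (by omega))
        · rintro (h | h | ⟨k, hk, rfl⟩)
          · omega
          · omega
          · rw [mem_Icc] at hk
            omega
      have h2 : Disjoint (Icc (1 : ℤ) (m 0)) ((Icc (1 : ℤ) (m 0)).image (fun j => -j)) := by
        rw [disjoint_left]
        intro j hj hj'
        obtain ⟨k, hk, rfl⟩ := mem_image.1 hj'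
        rw [mem_Icc] at hj hk
        omega
      have h3 : (0 : ℤ) ∉ Icc (1 : ℤ) (m 0) ∪ (Icc (1 : ℤ) (m 0)).image (fun j => -j) := by
        rw [mem_union, mem_image]
        rintro (h | ⟨k, hk, h⟩)
        · rw [mem_Icc] at h; omega
        · rw [mem_Icc] at hk; omega
      rw [h1, sum_insert h3, sum_union h2, sum_image (fun a _ b _ h => neg_injective h),
        sum_add_distrib]
    have hsum : ∑ _j ∈ Icc (1 : ℤ) (m 0), (N + 1) ≤
        ∑ j ∈ Icc (1 : ℤ) (m 0), 2 * (#(S U j ∩ S V j) + #(S U (-j) ∩ S V (-j))) :=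
      sum_le_sum pair
    rw [sum_const, Int.card_Icc, smul_eq_mul, ← mul_sum] at hsum
    have hm0 : ((m 0 : ℤ) + 1 - 1).toNat = m 0 := by omega
    rw [hm0] at hsum
    have hboxc : #(Box m) = (2 * m 0 + 1) * N := by
      rw [hN, hB, card_Box, card_Box, Fin.prod_univ_succ]
    rw [hslice, hsplit, hboxc, Fin.sum_univ_succ]
    rw [← hB, ← hN] at h0
    have h9 : m 0 * (N + 1) = m 0 * N + m 0 := by ring
    have h10 : (2 * m 0 + 1) * N = 2 * (m 0 * N) + N := by ring
    rw [h9] at hsum
    rw [h10]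
    omega

/-- every `I`-family is contained in a maximal one -/
lemma exists_good {n : ℕ} (m : Fin n → ℕ) (F : Finset (Fin n → ℤ)) (hF : F ⊆ Box m)
    (hI : ∀ x ∈ F, ∀ y ∈ F, ∃ i, 0 < x i + y i) : ∃ U, Good m U ∧ F ⊆ U := by
  classical
  let fam := (Box m).powerset.filter
    (fun G => F ⊆ G ∧ ∀ x ∈ G, ∀ y ∈ G, ∃ i, 0 < x i + y i)
  have hne : fam.Nonempty := ⟨F, mem_filter.2 ⟨mem_powerset.2 hF, Subset.refl _, hI⟩⟩
  obtain ⟨U, hU, hmax⟩ := exists_max_image fam card hne
  obtain ⟨hUB, hFU, hUI⟩ := mem_filter.1 hU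
  rw [mem_powerset] at hUB
  have hadd : ∀ z ∈ Box m, (∃ i, 0 < z i + z i) → (∀ x ∈ U, ∃ i, 0 < x i + z i) → z ∈ U := by
    intro z hz hzz hzU
    by_contra hnot
    have h1 : insert z U ∈ fam := by
      refine mem_filter.2 ⟨mem_powerset.2 (insert_subset hz hUB),
        hFU.trans (subset_insert _ _), ?_⟩
      intro x hx y hy
      rcases mem_insert.1 hx with hx' | hx'
      · rcases mem_insert.1 hy with hy' | hy'
        · rw [hx', hy']; exact hzz
        · obtain ⟨i, hi⟩ := hzU y hy'
          exact ⟨i, by rw [hx', add_comm]; exact hi⟩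
      · rcases mem_insert.1 hy with hy' | hy'
        · rw [hy']; exact hzU x hx'
        · exact hUI x hx' y hy'
    have h2 := hmax _ h1
    rw [card_insert_of_notMem hnot] at h2
    omega
  have hup : ∀ x ∈ U, ∀ y ∈ Box m, x ≤ y → y ∈ U := by
    intro x hx y hy hxy
    apply hadd y hy
    · obtain ⟨i, hi⟩ := hUI x hx x hx
      have h5 : x i ≤ y i := hxy i
      exact ⟨i, by omega⟩
    · intro z hz
      obtain ⟨i, hi⟩ := hUI z hz x hx
      have h5 : x i ≤ y i := hxy i
      exact ⟨i, by omega⟩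
  refine ⟨U, ⟨hUB, hup, ?_, ?_, ?_⟩, hFU⟩
  · intro h
    obtain ⟨i, hi⟩ := hUI 0 h 0 h
    simp at hi
  · -- one of `x`, `-x`
    have key : ∀ x ∈ Box m, (∃ i, 0 < x i) → x ∈ U ∨ -x ∈ U := by
      intro x hx ⟨i, hi⟩
      by_contra hcon
      rw [not_or] at hcon
      apply hcon.1
      apply hadd x hx ⟨i, by omega⟩
      intro z hz
      by_contra hz2
      push Not at hz2
      apply hcon.2
      apply hup z hz _ (neg_mem_Box hx)
      intro j
      have := hz2 j
      simp only [Pi.neg_apply]
      omega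
    intro x hx hx0
    by_cases h : ∃ i, 0 < x i
    · exact key x hx h
    · push Not at h
      obtain ⟨i, hi⟩ : ∃ i, x i ≠ 0 := by
        by_contra hall
        push Not at hall
        exact hx0 (funext hall)
      have := key (-x) (neg_mem_Box hx) ⟨i, by
        have := h i
        simp only [Pi.neg_apply]
        omega⟩
      rw [neg_neg] at this
      exact this.symm
  · intro x hx hx'
    obtain ⟨i, hi⟩ := hUI x hx _ hx'
    simp at hi

/-- the upper bound -/
theorem upper {n : ℕ} (m : Fin n → ℕ) (F : Finset (Fin n → ℤ)) (hF : F ⊆ Box m)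
    (hIU : ∀ x ∈ F, ∀ y ∈ F, (∃ i, 0 < x i + y i) ∧ (∃ j, x j + y j < 0)) :
    4 * #F + 1 + 2 * ∑ i, m i ≤ #(Box m) := by
  classical
  obtain ⟨U, hU, hFU⟩ := exists_good m F hF (fun x hx y hy => (hIU x hx y hy).1)
  obtain ⟨V, hV, hFV⟩ := exists_good m (F.image (fun x => -x)) (by
      intro x hx
      obtain ⟨y, hy, rfl⟩ := mem_image.1 hx
      exact neg_mem_Box (hF hy)) (by
      intro x hx y hy
      obtain ⟨a, ha, rfl⟩ := mem_image.1 hx
      obtain ⟨b, hb, rfl⟩ := mem_image.1 hy
      obtain ⟨j, hj⟩ := (hIU a ha b hb).2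
      exact ⟨j, by simp only [Pi.neg_apply]; omega⟩)
  have h1 : F ⊆ U \ V := by
    intro x hx
    refine mem_sdiff.2 ⟨hFU hx, fun h => ?_⟩
    exact hV.excl x h (hFV (mem_image_of_mem _ hx))
  have h2 := card_le_card h1
  have h3 := card_sdiff_add_card_inter U V
  have h4 := correlation n m U V hU hV
  have h5 := hU.card
  omega

/-! ### The construction -/

/-- the last nonzero coordinate exists and is negative -/
def NegLast : (n : ℕ) → (Fin n → ℤ) → Prop
  | 0, _ => False
  | n + 1, x => NegLast n (fun i => x i.succ) ∨ ((∀ i : Fin n, x i.succ = 0) ∧ x 0 < 0)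

/-- the first nonzero coordinate is positive and the last one is negative -/
def PosNeg : (n : ℕ) → (Fin n → ℤ) → Prop
  | 0, _ => False
  | n + 1, x => (0 < x 0 ∧ NegLast n (fun i => x i.succ)) ∨
      (x 0 = 0 ∧ PosNeg n (fun i => x i.succ))

lemma exists_neg : ∀ (n : ℕ) (x : Fin n → ℤ), NegLast n x → ∃ j, x j < 0
  | 0, _, h => h.elim
  | n + 1, x, h => by
    rcases h with h | h
    · obtain ⟨j, hj⟩ := exists_neg n _ h
      exact ⟨j.succ, hj⟩
    · exact ⟨0, h.2⟩

lemma negLast_add : ∀ (n : ℕ) (x y : Fin n → ℤ), NegLast n x → NegLast n y →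
    ∃ j, x j + y j < 0
  | 0, _, _, h, _ => h.elim
  | n + 1, x, y, hx, hy => by
    rcases hx with hx | hx
    · rcases hy with hy | hy
      · obtain ⟨j, hj⟩ := negLast_add n _ _ hx hy
        exact ⟨j.succ, hj⟩
      · obtain ⟨j, hj⟩ := exists_neg n _ hx
        exact ⟨j.succ, by have := hy.1 j; omega⟩
    · rcases hy with hy | hy
      · obtain ⟨j, hj⟩ := exists_neg n _ hy
        exact ⟨j.succ, by have := hx.1 j; omega⟩
      · exact ⟨0, by have := hx.2; have := hy.2; omega⟩

lemma PosNeg.negLast : ∀ (n : ℕ) (x : Fin n → ℤ), PosNeg n x → NegLast n x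
  | 0, _, h => h.elim
  | n + 1, x, h => by
    rcases h with h | h
    · exact Or.inl h.2
    · exact Or.inl (PosNeg.negLast n _ h.2)

lemma posNeg_add : ∀ (n : ℕ) (x y : Fin n → ℤ), PosNeg n x → PosNeg n y →
    ∃ j, 0 < x j + y j
  | 0, _, _, h, _ => h.elim
  | n + 1, x, y, hx, hy => by
    rcases hx with hx | hx
    · rcases hy with hy | hy
      · exact ⟨0, by have := hx.1; have := hy.1; omega⟩
      · exact ⟨0, by have := hx.1; have := hy.1; omega⟩
    · rcases hy with hy | hy
      · exact ⟨0, by have := hx.1; have := hy.1; omega⟩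
      · obtain ⟨j, hj⟩ := posNeg_add n _ _ hx.2 hy.2
        exact ⟨j.succ, hj⟩

open Classical in
lemma card_negLast : ∀ (n : ℕ) (m : Fin n → ℕ),
    2 * #((Box m).filter (NegLast n)) + 1 = #(Box m)
  | 0, m => by
    have h : (Box m).filter (NegLast 0) = ∅ := filter_eq_empty_iff.2 (fun x _ h => h)
    rw [card_Box, h]
    simp
  | n + 1, m => by
    have ih := card_negLast n (fun i => m i.succ)
    set B := Box (fun i : Fin n => m i.succ) with hB
    have hslice : ∀ j : ℤ, #(B.filter (fun x => NegLast (n + 1) (Fin.cons j x))) =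
        #(B.filter (NegLast n)) + if j < 0 then 1 else 0 := by
      intro j
      have h0 : B.filter (fun x => NegLast (n + 1) (Fin.cons j x)) =
          B.filter (NegLast n) ∪ (if j < 0 then {0} else ∅) := by
        ext x
        rw [mem_filter, mem_union, mem_filter]
        simp only [NegLast, Fin.cons_succ, Fin.cons_zero]
        constructor
        · rintro ⟨hx, h | ⟨h1, h2⟩⟩
          · exact Or.inl ⟨hx, h⟩
          · right
            rw [if_pos h2, mem_singleton]
            exact funext h1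
        · rintro (⟨hx, h⟩ | h)
          · exact ⟨hx, Or.inl h⟩
          · split_ifs at h with h2
            · rw [mem_singleton] at h
              subst h
              exact ⟨zero_mem_Box _, Or.inr ⟨fun _ => rfl, h2⟩⟩
            · exact absurd h (notMem_empty _)
      rw [h0, card_union_of_disjoint]
      · split_ifs <;> simp
      · rw [disjoint_left]
        intro x hx hx'
        split_ifs at hx' with h2
        · rw [mem_singleton] at hx'
          subst hx'
          obtain ⟨j, hj⟩ := exists_neg n _ (mem_filter.1 hx).2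
          simp at hj
        · exact absurd hx' (notMem_empty _)
    rw [card_slice, sum_congr rfl (fun j _ => hslice j), sum_add_distrib, sum_const,
      Int.card_Icc, smul_eq_mul, ← card_filter]
    have h1 : (Icc (-(m 0 : ℤ)) (m 0)).filter (fun j => j < 0) = Icc (-(m 0 : ℤ)) (-1) := by
      ext j
      rw [mem_filter, mem_Icc, mem_Icc]
      omega
    have h2 : ((m 0 : ℤ) + 1 - -(m 0 : ℤ)).toNat = 2 * m 0 + 1 := by omega
    have h3 : ((-1 : ℤ) + 1 - -(m 0 : ℤ)).toNat = m 0 := by omega
    rw [h1, Int.card_Icc, h2, h3, card_Box, Fin.prod_univ_succ, ← card_Box, ← hB, ← ih]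
    ring

open Classical in
lemma card_posNeg : ∀ (n : ℕ) (m : Fin n → ℕ),
    4 * #((Box m).filter (PosNeg n)) + 1 + 2 * ∑ i, m i = #(Box m)
  | 0, m => by
    have h : (Box m).filter (PosNeg 0) = ∅ := filter_eq_empty_iff.2 (fun x _ h => h)
    rw [card_Box, h]
    simp
  | n + 1, m => by
    have ih := card_posNeg n (fun i => m i.succ)
    have hc := card_negLast n (fun i => m i.succ)
    set B := Box (fun i : Fin n => m i.succ) with hB
    have hslice : ∀ j : ℤ, #(B.filter (fun x => PosNeg (n + 1) (Fin.cons j x))) =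
        (if 0 < j then #(B.filter (NegLast n)) else 0) +
          (if j = 0 then #(B.filter (PosNeg n)) else 0) := by
      intro j
      rcases lt_trichotomy j 0 with h | h | h
      · rw [if_neg (by omega), if_neg (by omega), card_eq_zero, filter_eq_empty_iff]
        intro x _ hx
        simp only [PosNeg, Fin.cons_zero] at hx
        omega
      · rw [if_neg (by omega), if_pos h, zero_add]
        congr 1
        ext x
        rw [mem_filter, mem_filter]
        simp only [PosNeg, Fin.cons_zero, Fin.cons_succ]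
        constructor
        · rintro ⟨hx, h' | h'⟩
          · omega
          · exact ⟨hx, h'.2⟩
        · rintro ⟨hx, h'⟩
          exact ⟨hx, Or.inr ⟨h, h'⟩⟩
      · rw [if_pos h, if_neg (by omega), add_zero]
        congr 1
        ext x
        rw [mem_filter, mem_filter]
        simp only [PosNeg, Fin.cons_zero, Fin.cons_succ]
        constructor
        · rintro ⟨hx, h' | h'⟩
          · exact ⟨hx, h'.2⟩
          · omega
        · rintro ⟨hx, h'⟩
          exact ⟨hx, Or.inl ⟨h, h'⟩⟩
    rw [card_slice, sum_congr rfl (fun j _ => hslice j), sum_add_distrib, ← sum_filter,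
      ← sum_filter, sum_const, sum_const, smul_eq_mul, smul_eq_mul]
    have h1 : (Icc (-(m 0 : ℤ)) (m 0)).filter (fun j => 0 < j) = Icc 1 (m 0 : ℤ) := by
      ext j
      rw [mem_filter, mem_Icc, mem_Icc]
      omega
    have h2 : (Icc (-(m 0 : ℤ)) (m 0)).filter (fun j => j = 0) = {0} := by
      ext j
      rw [mem_filter, mem_Icc, mem_singleton]
      omega
    have h3 : ((m 0 : ℤ) + 1 - 1).toNat = m 0 := by omega
    rw [h1, h2, Int.card_Icc, h3, card_singleton, card_Box, Fin.prod_univ_succ, ← card_Box, ← hB,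
      Fin.sum_univ_succ, ← hc]
    rw [← hc] at ih
    have h4 : (2 * m 0 + 1) * (2 * #(B.filter (NegLast n)) + 1) =
        4 * (m 0 * #(B.filter (NegLast n))) + 2 * m 0 + (2 * #(B.filter (NegLast n)) + 1) := by
      ring
    rw [h4]
    omega

/-- **The exact value.** If every `e_i` is even, the maximum size `g(e)` of an `I,U`-family in
`M(e)` satisfies `4 g(e) + 1 + ∑ e_i = ∏ (e_i + 1) = |M(e)|`. -/
theorem result (n : ℕ) (e : Fin n → ℕ) (he : ∀ i, Even (e i)) :
    4 * g e + 1 + ∑ i, e i = ∏ i, (e i + 1) := by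
  classical
  have h1 : ∀ i, ∃ k, e i = 2 * k := fun i => by
    obtain ⟨k, hk⟩ := he i
    exact ⟨k, by omega⟩
  choose m hm using h1
  have hMem : ∀ a : Fin n → ℕ, a ∈ M e ↔ (fun i => (a i : ℤ) - m i) ∈ Box m := by
    intro a
    rw [mem_Box, M, Fintype.mem_piFinset]
    refine forall_congr' (fun i => ?_)
    rw [mem_range, hm i]
    omega
  have hinj : Function.Injective (fun (a : Fin n → ℕ) (i : Fin n) => (a i : ℤ) - m i) := by
    intro a b h
    ext i
    have := congrFun h i
    simp only at this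
    omega
  have hsum : ∑ i, e i = 2 * ∑ i, m i := by
    rw [mul_sum]
    exact sum_congr rfl (fun i _ => hm i)
  have hprod : ∏ i, (e i + 1) = #(Box m) := by
    rw [card_Box]
    exact prod_congr rfl (fun i _ => by rw [hm i])
  rw [hsum, hprod]
  apply le_antisymm
  · -- upper bound
    have hg : 4 * g e ≤ #(Box m) - 1 - 2 * ∑ i, m i := by
      have : g e ≤ (#(Box m) - 1 - 2 * ∑ i, m i) / 4 := by
        apply Finset.sup_le
        intro F hF
        have hIU := (mem_filter.1 hF).2
        have := upper m (F.image (fun (a : Fin n → ℕ) (i : Fin n) => (a i : ℤ) - m i)) (by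
          intro x hx
          obtain ⟨a, ha, rfl⟩ := mem_image.1 hx
          exact (hMem a).1 (hIU.1 ha)) (by
          intro x hx y hy
          obtain ⟨a, ha, rfl⟩ := mem_image.1 hx
          obtain ⟨b, hb, rfl⟩ := mem_image.1 hy
          obtain ⟨⟨i, hi⟩, ⟨j, hj⟩⟩ := hIU.2 a ha b hb
          rw [hm i] at hi
          rw [hm j] at hj
          exact ⟨⟨i, by push_cast; omega⟩, ⟨j, by push_cast; omega⟩⟩)
        rw [card_image_of_injective _ hinj] at this
        rw [Nat.le_div_iff_mul_le (by norm_num)]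
        omega
      omega
    have h0 := upper m ∅ (empty_subset _) (fun x hx => absurd hx (notMem_empty _))
    rw [card_empty] at h0
    omega
  · -- the construction
    have hc := card_posNeg n m
    set G := (Box m).filter (PosNeg n) with hG
    let F : Finset (Fin n → ℕ) := G.image (fun (x : Fin n → ℤ) (i : Fin n) => (x i + m i).toNat)
    have hback : ∀ x ∈ G, ∀ i, (((x i + m i).toNat : ℕ) : ℤ) = x i + m i := by
      intro x hx i
      have := mem_Box.1 (mem_filter.1 hx).1 i
      omega
    have hFc : #F = #G := by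
      apply card_image_of_injOn
      intro x hx y hy h
      ext i
      have h1 := hback x (mem_coe.1 hx) i
      have h2 := hback y (mem_coe.1 hy) i
      have h3 := congrFun h i
      simp only at h3
      omega
    have hFIU : IsIU e F := by
      refine ⟨?_, ?_⟩
      · intro a ha
        obtain ⟨x, hx, rfl⟩ := mem_image.1 ha
        rw [hMem, mem_Box]
        intro i
        have h1 := hback x hx i
        have h2 := mem_Box.1 (mem_filter.1 hx).1 i
        omega
      · intro a ha b hb
        obtain ⟨x, hx, rfl⟩ := mem_image.1 ha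
        obtain ⟨y, hy, rfl⟩ := mem_image.1 hb
        have hx' := (mem_filter.1 hx).2
        have hy' := (mem_filter.1 hy).2
        obtain ⟨i, hi⟩ := posNeg_add n x y hx' hy'
        obtain ⟨j, hj⟩ := negLast_add n x y (hx'.negLast) (hy'.negLast)
        refine ⟨⟨i, ?_⟩, ⟨j, ?_⟩⟩
        · have h1 := hback x hx i
          have h2 := hback y hy i
          rw [hm i]
          beta_reduce
          omega
        · have h1 := hback x hx j
          have h2 := hback y hy j
          rw [hm j]
          beta_reduce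
          omega
    have hle : #F ≤ g e :=
      Finset.le_sup (f := card) (mem_filter.2 ⟨mem_powerset.2 hFIU.1, hFIU⟩)
    omega

end Pool.Agent.Results.MP_a656b1_co.ExactValue
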